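import Pool.Agent.Mg.F4f4d9fr.G351bad

namespace Pool.Agent.Results.MP_4f4d9f_gt.Artin

open Pool.Agent.MP_4f4d9f_gt

/-- The Davis-Okun conjecture for aspherical manifolds whose fundamental group has a co-amenable
subgroup `H` (for instance one of finite index) that embeds in an Artin group `A` so that the
image contains a power of every conjugate of every central element of a spherical parabolic
subgroup (for instance a subgroup of finite index of `A` or of the pure Artin group), where every
finite set of generators of `A` without a label `∞` is spherical (Artin groups of FC type, among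
them all right-angled Artin groups) or has an acyclic Deligne complex. `Y` is an `n`-manifold (charts in a convex set `C` with nonempty interior: `C = ℝⁿ` or a
half space), `X` its contractible universal cover, `G` the deck group, `E = ℓ²(G)` with basis `b`,
and `ι` the left regular representation. -/
theorem result {n : ℕ} {C : Set (EuclideanSpace ℝ (Fin n))} (hC : Convex ℝ C)
    (hC' : (interior C).Nonempty)
    {Y : Type} [TopologicalSpace Y] [T2Space Y] [ChartedSpace C Y]
    {X : Type} [TopologicalSpace X] [ContractibleSpace X]
    {G : Type} [Group G] [MulAction G X] [ContinuousConstSMul G X]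
    {p : X → Y} (hp : IsQuotientCoveringMap p G)
    {S : Type} (M : CoxeterMatrix S)
    (hM : ∀ T : Set S, T.Finite → (∀ s ∈ T, ∀ t ∈ T, M s t ≠ 0) →
      Spherical M T ∨ OrderAcyclic (Deligne M T))
    (H : Subgroup G) (hH : Folner G (G ⧸ H))
    (j : H →* Artin M) (hj : Function.Injective j)
    (hpow : ∀ T : Set S, Spherical M T → ∀ z ∈ parab M T, (∀ a ∈ parab M T, a * z = z * a) →
      ∀ g : Artin M, ∃ m : ℕ, 0 < m ∧ g * z ^ m * g⁻¹ ∈ j.range)
    {E : Type} [NormedAddCommGroup E] [InnerProductSpace ℂ E]
    (b : HilbertBasis G ℂ E) (ι : G →* vnAlg b) (hι : ∀ g h, (ι g).1 (b h) = b (g * h))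
    (k : ℕ) (hk : n < 2 * (k + 1)) : bettiSucc b ι X k = 0 :=
  ArtinMain.main (deligne_acyclic hM) hC hC' hp H hH hj hpow b ι hι hk

end Pool.Agent.Results.MP_4f4d9f_gt.Artin
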