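import Pool.Agent.Mg.F4f4d9fr.Gab7b5e

namespace Pool.Agent.Results.MP_4f4d9f_gt.Building

open Pool.Agent.MP_4f4d9f_gt

/-- The Davis-Okun conjecture for aspherical manifolds whose fundamental group `G` has a
co-amenable subgroup `H` that is a uniform lattice of a thick semi-regular right-angled building:
the chambers are the elements of a graph product `W` of finite groups `P v` of order at least `3`,
the chambers `c`, `c'` are `v`-adjacent when `c⁻¹ c' ∈ P v`, and `H` acts on the chambers
preserving each adjacency relation, freely and with finitely many orbits. -/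
theorem result {n : ℕ} {C : Set (EuclideanSpace ℝ (Fin n))} (hC : Convex ℝ C)
    (hC' : (interior C).Nonempty)
    {M : Type} [TopologicalSpace M] [T2Space M] [ChartedSpace C M]
    {X : Type} [TopologicalSpace X] [ContractibleSpace X]
    {G : Type} [Group G] [MulAction G X] [ContinuousConstSMul G X]
    {p : X → M} (hp : IsQuotientCoveringMap p G)
    {V W : Type} [Finite V] [Group W] (Γ : SimpleGraph V) (P : V → Subgroup W)
    (hP : IsGraphProd Γ P) (hfin : ∀ v, Finite (P v))
    (h3 : ∀ v, ∃ a ∈ P v, ∃ b ∈ P v, a ≠ 1 ∧ b ≠ 1 ∧ a ≠ b)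
    (H : Subgroup G) (hH : Folner G (G ⧸ H)) [MulAction H W]
    (hadj : ∀ (h : H) (c c' : W) (v : V), c⁻¹ * c' ∈ P v → (h • c)⁻¹ * (h • c') ∈ P v)
    (hfree : ∀ (h : H) (c : W), h • c = c → h = 1)
    (hcof : ∃ F : Finset W, ∀ c : W, ∃ h : H, h • c ∈ F)
    {E : Type} [NormedAddCommGroup E] [InnerProductSpace ℂ E]
    (b : HilbertBasis G ℂ E) (ι : G →* vnAlg b) (hι : ∀ g h, (ι g).1 (b h) = b (g * h))
    (k : ℕ) (hk : n < 2 * (k + 1)) : bettiSucc b ι X k = 0 :=
  main_building hC hC' hp Γ P hP hfin h3 H hH hadj hfree hcof b ι hι k hk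

end Pool.Agent.Results.MP_4f4d9f_gt.Building
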