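import Pool.Agent.Mg.F4f4d9fr.G7cae93

namespace Pool.Agent.Results.MP_4f4d9f_gt.Cube

open Pool.Agent.MP_4f4d9f_gt Pool.Agent.MP_4f4d9f_gt.Cb

/-- The Davis-Okun conjecture for aspherical manifolds whose fundamental group `G` has a
co-amenable subgroup `H` (the action of `G` on `G ⧸ H` satisfies the Følner condition; for example
`H = G`) with an `n`-dimensional cubical hierarchy: `H` is built by cocompact actions on CAT(0) cube
complexes, where at each step the group is replaced by the reflection groups at the vertices, down
to groups that are virtually residually (locally indicable and amenable) and act on contractible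
`n`-manifolds, or act properly and cocompactly on CAT(0) cube complexes that are `n`-manifolds.
`M` is an `n`-manifold (charts in a convex set `C` with nonempty interior: `C = ℝⁿ` or a half
space), `X` its contractible universal cover, `G` the deck group, `E = ℓ²(G)` with basis `b`, and
`ι` the left regular representation. -/
theorem result {n : ℕ} {C : Set (EuclideanSpace ℝ (Fin n))} (_hC : Convex ℝ C)
    (_hC' : (interior C).Nonempty)
    {M : Type} [TopologicalSpace M] [T2Space M] [ChartedSpace C M]
    {X : Type} [TopologicalSpace X] [ContractibleSpace X]
    {G : Type} [Group G] [MulAction G X] [ContinuousConstSMul G X]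
    {p : X → M} (hp : IsQuotientCoveringMap p G)
    (H : Subgroup G) (hH : Folner G (G ⧸ H)) (k : ℕ) (hK : HierC n (k + 1) H)
    {E : Type} [NormedAddCommGroup E] [InnerProductSpace ℂ E]
    (b : HilbertBasis G ℂ E) (ι : G →* vnAlg b) (hι : ∀ g h, (ι g).1 (b h) = b (g * h))
    (hk : n < 2 * (k + 1)) : bettiSucc b ι X k = 0 :=
  main_hierC cube_rule hp H hH k hK b ι hι hk

end Pool.Agent.Results.MP_4f4d9f_gt.Cube
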