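import Pool.Agent.Mg.F4f4d9fr.G4a8d50
import Pool.Agent.Mg.F4f4d9fr.G0da7bc
import Pool.Agent.Mg.F4f4d9fr.Ge90574

namespace Pool.Agent.Results.MP_4f4d9f_gt.TopDegrees

open Pool.Agent.MP_4f4d9f_gt

/-- Let `M` be an aspherical topological `n`-manifold, `n ≥ 3`, compact or not, with or without
boundary (charts in a closed convex set `C` with nonempty interior: `C = ℝⁿ` or a half space).
Then the `L²`-Betti numbers of `M` vanish in all degrees `k + 1 ≥ n - 1`. For `n = 4` these are
all degrees above the middle dimension. `X` is the contractible universal cover, `G` the deck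
group, `E = ℓ²(G)` with basis `b`, and `ι` the left regular representation. -/
theorem result {n : ℕ} (hn : 3 ≤ n) {C : Set (EuclideanSpace ℝ (Fin n))} (hC : Convex ℝ C)
    (hC' : (interior C).Nonempty) (hC'' : IsClosed C)
    {M : Type} [TopologicalSpace M] [T2Space M] [ChartedSpace C M]
    {X : Type} [TopologicalSpace X] [ContractibleSpace X]
    {G : Type} [Group G] [MulAction G X] [ContinuousConstSMul G X]
    {p : X → M} (hp : IsQuotientCoveringMap p G)
    {E : Type} [NormedAddCommGroup E] [InnerProductSpace ℂ E]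
    (b : HilbertBasis G ℂ E) (ι : G →* vnAlg b) (hι : ∀ g h, (ι g).1 (b h) = b (g * h))
    (k : ℕ) (hk : n - 1 ≤ k + 1) : bettiSucc b ι X k = 0 :=
  Nc.main_top (Nc.goal_of_m Rk.m_stmt) hn hC hC' hC'' hp b ι hι (by omega)

end Pool.Agent.Results.MP_4f4d9f_gt.TopDegrees
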